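import Pool.Agent.GJMS.Final2
import Pool.Agent.GJMS.AmbPn
import Pool.Agent.GJMS.AmbExist

/-!
# Uniqueness of the critical GJMS operator

All the definitions used in the statement are in `Pool/Agent/GJMS/Defs.lean`.
-/

open Set
open scoped ContDiff

namespace Pool.Agent.Results.MP_0a3b2f_gt.UniqueGJMS

open GJMS

/-- Let `n ≥ 4` be even and let `D = Δ^{n/2} + ∑ c C`, where the `C` are complete contractions of
tensors `∇^{l_1} P ⊗ ⋯ ⊗ ∇^{l_m} P ⊗ ∇^k f` with `k < n`.  If `D` is conformally invariant as an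
operator `E(0) → E(-n)` (on smooth Riemannian metrics of `ℝ^n`), then `D` is the critical GJMS
operator: for every smooth pseudo-Riemannian metric `g` of any signature on an open set
`U ⊆ ℝ^n` there is an ambient metric in normal form, and for every ambient metric, every smooth
function `f` on `U` and every extension `F` of `f` homogeneous of degree `0` (these exist) the
function `Δ̃^{n/2} F` is equal to `t^{-n} D_g f` on `ρ = 0`. -/
theorem result (n : ℕ) (hn : Even n) (h4 : 4 ≤ n) (L : List (ℝ × Contr)) (hL : ∀ x ∈ L, x.2.k < n)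
    (hD : ConfInvt n L) (U : Set (Fin n → ℝ)) (g : Fin n → Fin n → Raw n) (hg : IsMet U g) :
    (∃ W G, IsAmb U g W G ∧ ∀ z, bpt z ∈ U → z 1 = 0 → z ∈ W) ∧
    ∀ W G, IsAmb U g W G → ∀ f : Raw n, ContDiffOn ℝ ∞ f U →
      (∃ F, IsExt f W F) ∧
      ∀ F, IsExt f W F → ∀ z ∈ W, z 1 = 0 →
        (lap pd (ambG G) (minv (ambG G)))^[n / 2] F z =
          Real.exp (-(n * z 0)) * DD n L pd g (minv g) f (bpt z) := by
  refine ⟨Smo.amb_exists hn h4 hg, fun W G hG f hf =>
    ⟨Smo.ext_exists hg.open_U hf hG.base, fun F hF z hz hz1 => ?_⟩⟩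
  rw [amb_Pn hn h4 hg hG hf hF hz hz1, final_met hn h4 L hL hD hg hf (hG.base z hz)]

end Pool.Agent.Results.MP_0a3b2f_gt.UniqueGJMS
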